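import Pool.Agent.Y212.Fk.Top

/-!
MP_19ffc6_ag: resolution of the quotients of the spaces of `n × m`-matrices by all Frobenius
kernels of the general linear group `GL_n`.
-/

set_option autoImplicit false

open AlgebraicGeometry CategoryTheory MvPolynomial Pool.Agent.H920R2

universe u

namespace Pool.Agent.Results.MP_19ffc6_ag.FrobeniusKernels

variable (k : Type u) [Field k] (n m : ℕ)

/-- The homomorphism `X i j ↦ ∑ l, G i l * X l j` from the coordinate ring `k[X]` of the space of
`n × m`-matrices to the polynomial ring `k[X][G]`, where `X` and `G` are the generic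
`n × m`-matrix and the generic `n × n`-matrix: left multiplication by `G`. -/
noncomputable def coaction : MvPolynomial (Fin n × Fin m) k →ₐ[k]
    MvPolynomial (Fin n × Fin n) (MvPolynomial (Fin n × Fin m) k) :=
  aeval fun u => ∑ l, X (u.1, l) * C (X (l, u.2))

/-- The ideal of `k[X][G]` generated by the `G i l ^ q - δ i l`. It defines the closed subscheme
`(GL_n)_r × M_{n,m}` of `M_n × M_{n,m}`, where `(GL_n)_r` is the kernel of the `r`-th power of the
Frobenius homomorphism of `GL_n`, if `q = p ^ r`. -/
noncomputable def kernelIdeal (q : ℕ) :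
    Ideal (MvPolynomial (Fin n × Fin n) (MvPolynomial (Fin n × Fin m) k)) :=
  Ideal.span (Set.range fun u => X u ^ q - if u.1 = u.2 then 1 else 0)

/-- The algebra of the functions on the space of `n × m`-matrices which are invariant under the
left multiplications by the `r`-th Frobenius kernel of `GL_n`, if `q = p ^ r`. -/
noncomputable def invariants (q : ℕ) : Subalgebra k (MvPolynomial (Fin n × Fin m) k) where
  carrier := {f | coaction k n m f - C f ∈ kernelIdeal k n m q}
  mul_mem' := (Pool.Agent.Y212.Fk.Inv k n m q).mul_mem'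
  add_mem' := (Pool.Agent.Y212.Fk.Inv k n m q).add_mem'
  algebraMap_mem' := (Pool.Agent.Y212.Fk.Inv k n m q).algebraMap_mem'

/-- The quotient of the space of `n × m`-matrices by the `r`-th Frobenius kernel of `GL_n`, if
`q = p ^ r`. -/
noncomputable def quot (q : ℕ) : Scheme.{u} := Spec (CommRingCat.of (invariants k n m q))

/-- The structure morphism of the quotient. -/
noncomputable def quotStr (q : ℕ) : quot k n m q ⟶ Spec (CommRingCat.of k) :=
  Spec.map (CommRingCat.ofHom (algebraMap k (invariants k n m q)))

/-- Let `k` be a field of characteristic `p`, `n ≤ m` and `r` be arbitrary. The quotient of the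
space of `n × m`-matrices over `k` by the `r`-th Frobenius kernel of the general linear group
`GL_n`, acting by left multiplication, is a variety and has a resolution of singularities. -/
theorem result (p : ℕ) [Fact p.Prime] (k : Type u) [Field k] [CharP k p] (n m r : ℕ)
    (hnm : n ≤ m) :
    IsVariety (quotStr k n m (p ^ r)) ∧
    ∃ (Y : Scheme.{u}) (π : Y ⟶ quot k n m (p ^ r)),
      AlgebraicGeometry.IsIntegral Y ∧ AlgebraicGeometry.IsProper π ∧
      AlgebraicGeometry.Smooth (π ≫ quotStr k n m (p ^ r)) ∧
      ∃ U : (quot k n m (p ^ r)).Opens,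
        Dense (U : Set (quot k n m (p ^ r))) ∧ IsIso (π ∣_ U) := by
  have hp : p.Prime := Fact.out
  have h1 : Algebra.FiniteType k (Pool.Agent.Y212.Fk.Inv k n m (p ^ r)) :=
    Pool.Agent.Y212.Fk.finiteType_of_pow _ (pow_pos hp.pos r) fun v =>
      Pool.Agent.Y212.Fk.pow_mem r v
  have h2 : IsVariety (X := Spec (CommRingCat.of (Pool.Agent.Y212.Fk.Inv k n m (p ^ r))))
      (Spec.map (CommRingCat.ofHom (algebraMap k (Pool.Agent.Y212.Fk.Inv k n m (p ^ r))))) :=
    isVariety_spec
  exact ⟨h2, Pool.Agent.Y212.Fk.hasResolution r hnm⟩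

end Pool.Agent.Results.MP_19ffc6_ag.FrobeniusKernels
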