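import Pool.Agent.Y177.Dg.Grd

set_option autoImplicit false

open AlgebraicGeometry CategoryTheory Polynomial Pool.Agent.H920R2

universe u

namespace Pool.Agent.Results.MP_19ffc6_ag.SemidirectQuotients

section

variable {k B : Type u} [Field k] [CommRing B] [Algebra k B] {Λ : Type} [AddCommGroup Λ]

/-- `ρ : B → B[t]` is the coaction of an action of the additive group on `Spec B`: with
`ρ b = ∑ D_j b t ^ j` this says `D_0 = id` and `D_i ∘ D_j = (i + j).choose i • D_(i + j)`. -/
structure IsGaAction (ρ : B →ₐ[k] B[X]) : Prop where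
  counit : ∀ b, (ρ b).coeff 0 = b
  coassoc : ∀ i j b, (ρ ((ρ b).coeff j)).coeff i = (i + j).choose i • (ρ b).coeff (i + j)

/-- The diagonalizable group scheme `D = Spec k[Λ]` acts on `Spec B` through a `Λ`-grading of `B`
and on `𝔾_a` through the character `β`; the action `ρ` of `𝔾_a` is equivariant, so that the
semidirect product `𝔾_a ⋊ D` acts on `Spec B`. -/
def IsEquivariant (𝒜 : Λ → Submodule k B) (β : Λ) (ρ : B →ₐ[k] B[X]) : Prop :=
  ∀ i, ∀ b ∈ 𝒜 i, ∀ j : ℕ, (ρ b).coeff j ∈ 𝒜 (i + j • β)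

/-- The finite subgroup `A` of `k = 𝔾_a (k)` is stable under `D = Spec k[Λ]`, acting on `𝔾_a`
through the character `β`: the polynomial `∏ (t - a)`, `a ∈ A`, is homogeneous. -/
def IsStable (A : AddSubgroup k) [Fintype A] (β : Λ) : Prop :=
  ∀ j : ℕ, (∏ a : A, (X - C (a : k))).coeff j ≠ 0 → j • β = β

/-- `R` is the ring of invariants of the semidirect product of the subgroup scheme
`α_q × A` of `𝔾_a` and the diagonalizable group scheme `D = Spec k[Λ]`, where `A` is a subgroup of
`k` and `α_q` is the kernel of `t ↦ t ^ q`. -/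
def IsInvariantRing (𝒜 : Λ → Submodule k B) (ρ : B →ₐ[k] B[X]) (q : ℕ) (A : AddSubgroup k)
    (R : Subalgebra k B) : Prop :=
  ∀ b, b ∈ R ↔ b ∈ 𝒜 0 ∧ (∀ j, 0 < j → j < q → (ρ b).coeff j = 0) ∧
    ∀ a ∈ A, (ρ b).eval (algebraMap k B a) = b

end

/-- `Spec R` is a variety over `k` which has a resolution of singularities. -/
def ResolvedVariety (k R : Type u) [Field k] [CommRing R] [Algebra k R] : Prop :=
  IsVariety (X := Spec (CommRingCat.of R)) (Spec.map (CommRingCat.ofHom (algebraMap k R))) ∧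
    ∃ (Y : Scheme.{u}) (π : Y ⟶ Spec (CommRingCat.of R)),
      AlgebraicGeometry.IsIntegral Y ∧ AlgebraicGeometry.IsProper π ∧
      AlgebraicGeometry.Smooth (π ≫ Spec.map (CommRingCat.ofHom (algebraMap k R))) ∧
      ∃ U : (Spec (CommRingCat.of R)).Opens, Dense (U : Set (Spec (CommRingCat.of R))) ∧
        IsIso (π ∣_ U)

/-- The coaction `x_i ↦ ∑_(m < p) t ^ m / m! ∑_j (M ^ m)_(j i) x_j` of the action of the additive
group on `𝔸 ^ n` through the matrices `exp (t M)`. -/
noncomputable def expAction {k : Type u} [Field k] (p : ℕ) {n : ℕ}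
    (M : Matrix (Fin n) (Fin n) k) :
    MvPolynomial (Fin n) k →ₐ[k] (MvPolynomial (Fin n) k)[X] :=
  MvPolynomial.aeval fun i => ∑ m ∈ Finset.range p,
    monomial m (∑ j, ((m.factorial : k)⁻¹ * (M ^ m) j i) • MvPolynomial.X j)

section

variable {k B : Type u} [Field k] [CommRing B] [Algebra k B] {Λ : Type} [AddCommGroup Λ]

lemma isAct_of {ρ : B →ₐ[k] B[X]} (h : IsGaAction ρ) : Pool.Agent.Y177.Ga.IsAct ρ where
  zero := h.counit
  iter := h.coassoc

lemma mem_iff {𝒜 : Λ → Submodule k B} {ρ : B →ₐ[k] B[X]} {q : ℕ} {A : AddSubgroup k}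
    {R : Subalgebra k B} (hR : IsInvariantRing 𝒜 ρ q A R) (b : B) :
    b ∈ R ↔ b ∈ Pool.Agent.Y177.Ga.frs ρ q ⊓ Pool.Agent.Y177.Ga.inv ρ A ∧ b ∈ 𝒜 0 := by
  rw [hR b, and_comm]
  refine and_congr (and_congr Iff.rfl ?_) Iff.rfl
  refine forall₂_congr fun a _ => ?_
  rw [Pool.Agent.Y177.Ga.sg_apply]

end

lemma expAction_eq {k : Type u} [Field k] (p : ℕ) {n : ℕ} (M : Matrix (Fin n) (Fin n) k) :
    expAction p M = Pool.Agent.Y177.Ga.ex p (Matrix.toLin' M) := by
  apply MvPolynomial.algHom_ext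
  intro i
  unfold expAction Pool.Agent.Y177.Ga.ex
  rw [MvPolynomial.aeval_X, MvPolynomial.aeval_X]
  refine Finset.sum_congr rfl fun m _ => ?_
  congr 1
  rw [← Matrix.toLin'_pow, Matrix.toLin'_apply, Matrix.mulVec_single_one]
  rfl

lemma exists_ring {k : Type u} [Field k] {n : ℕ} {Λ : Type} [AddCommGroup Λ] [Fintype Λ]
    [DecidableEq Λ] (w : Fin n → Λ) (ρ : MvPolynomial (Fin n) k →ₐ[k] (MvPolynomial (Fin n) k)[X])
    (q : ℕ) (A : AddSubgroup k) : ∃ R : Subalgebra k (MvPolynomial (Fin n) k),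
      IsInvariantRing (MvPolynomial.weightedHomogeneousSubmodule k w) ρ q A R := by
  refine ⟨Pool.Agent.Y177.Ga.frs ρ q ⊓ Pool.Agent.Y177.Ga.inv ρ A ⊓
    Pool.Agent.Y177.Dg.zr (Pool.Agent.Y177.Dg.pg_pw (k := k) w), fun b => ?_⟩
  rw [Algebra.mem_inf, and_comm]
  refine and_congr ?_ (and_congr Iff.rfl ?_)
  · rw [Pool.Agent.Y177.Dg.mem_zr, Pool.Agent.Y177.Dg.pw_eq_iff,
      MvPolynomial.mem_weightedHomogeneousSubmodule]
  · refine forall₂_congr fun a _ => ?_
    rw [Pool.Agent.Y177.Ga.sg_apply]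

/-- (1) Let `D = Spec k[Λ]` be a finite diagonalizable group scheme, acting on `𝔾_a` through the
character `β`, and let `𝔾_a ⋊ D` act on a smooth affine variety `Spec B` over a field `k` of
characteristic `p`. Let `F` be a `D`-stable regular weighted centre with `D_j (F d) ⊆ F (d + j l)`
for which the leading forms of the derivation `D_1` generate up to radical. Let
`H = α_(p ^ r) × A` be a finite subgroup scheme of `𝔾_a` which is stable under `D`, such that the
fixed points of `D_1` (if `r > 0`) and of the nonzero elements of `A` are in the support of the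
centre. Then `(Spec B) / (H ⋊ D)` has a resolution of singularities.

(2) Let `M ^ p = 0` and let the coordinates `x_i` of `𝔸 ^ n` have weights `w i` in `Λ`, such that
`M` is homogeneous of weight `β`. Then the quotient of `𝔸 ^ n` by the semidirect product `H ⋊ D` of
every finite `D`-stable subgroup scheme `H = α_(p ^ r) × A` of `𝔾_a`, acting through
`t ↦ exp (t M)`, and of `D`, acting through the weights, has a resolution. -/
theorem result (p : ℕ) [Fact p.Prime] (k : Type u) [Field k] [CharP k p] (Λ : Type)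
    [AddCommGroup Λ] [Fintype Λ] [DecidableEq Λ] (β : Λ) (r : ℕ) (A : AddSubgroup k) [Fintype A]
    (hA : IsStable A β) :
    (∀ (B : Type u) [CommRing B] [IsDomain B] [Algebra k B] [Algebra.Smooth k B]
      (𝒜 : Λ → Submodule k B) [GradedAlgebra 𝒜] (ρ : B →ₐ[k] B[X]), IsGaAction ρ →
      IsEquivariant 𝒜 β ρ →
      ∀ (F : ℕ → Ideal B), RegularWeightedCentre k F → (∀ d, (F d).IsHomogeneous 𝒜) → F 1 ≠ ⊥ →
      ∀ l : ℕ, 0 < l → (∀ d, ∀ b ∈ F d, ∀ j, (ρ b).coeff j ∈ F (d + j * l)) →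
      (∀ d, 1 ≤ d → ∀ b ∈ F d, ∃ N : ℕ, b ^ N ∈ F (N * d + 1) ⊔
        Ideal.span {y | ∃ e, ∃ c ∈ F e, ∃ a ∈ F (N * d - (e + l)), y = a * (ρ c).coeff 1}) →
      (r ≠ 0 → ∀ P : Ideal B, P.IsPrime → (∀ b, (ρ b).coeff 1 ∈ P) → F 1 ≤ P) →
      (∀ a ∈ A, a ≠ 0 → ∀ P : Ideal B, P.IsPrime →
        (∀ b, (ρ b).eval (algebraMap k B a) - b ∈ P) → F 1 ≤ P) →
      ∀ R : Subalgebra k B, IsInvariantRing 𝒜 ρ (p ^ r) A R → ResolvedVariety k R) ∧
    ∀ (n : ℕ) (M : Matrix (Fin n) (Fin n) k) (w : Fin n → Λ), M ^ p = 0 →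
      (∀ i j, M i j ≠ 0 → w i = w j + β) →
      IsGaAction (expAction p M) ∧
      IsEquivariant (MvPolynomial.weightedHomogeneousSubmodule k w) β (expAction p M) ∧
      ∃ R : Subalgebra k (MvPolynomial (Fin n) k),
        IsInvariantRing (MvPolynomial.weightedHomogeneousSubmodule k w) (expAction p M) (p ^ r) A R
        ∧ ResolvedVariety k R := by
  constructor
  · intro B _ _ _ _ 𝒜 _ ρ hρ hequ F hF hhom hne l hl hdiv hlead hfix hfixA R hR
    have _ : CharP B p := charP_of_injective_algebraMap (algebraMap k B).injective p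
    have hFi : Pool.Agent.H519R3.RS.IsFilt F := ⟨hF.zero, hF.anti, hF.mul⟩
    have hpg := Pool.Agent.Y177.Dg.pg_grd 𝒜
    exact Pool.Agent.Y177.Dg.semi_main (p := p) (isAct_of hρ) hFi hdiv hlead hl
      (Pool.Agent.H519R3.RS.good_of_centre hFi hF) hne r A hfix
      (fun a ha ha0 P hP h => hfixA a ha ha0 P hP fun b => by
        rw [← Pool.Agent.Y177.Ga.sg_apply]
        exact h b) hpg β
      (fun i b j => Pool.Agent.Y177.Dg.rho_of_hom hpg (fun i b hb j => by
        rw [Pool.Agent.Y177.Dg.proj_eq_iff] at hb ⊢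
        exact hequ i b hb j) i b j)
      (fun d c hc i => by
        rw [GradedAlgebra.proj_apply]
        exact hhom d i hc) hA R (fun b => by
        rw [mem_iff hR, Pool.Agent.Y177.Dg.proj_eq_iff])
  · intro n M w hM hMw
    have hN : (Matrix.toLin' M) ^ p = 0 := by
      rw [← Matrix.toLin'_pow, hM, map_zero]
    have hNβ : ∀ i v, Pool.Agent.Y177.Dg.pv k w (i + β) (Matrix.toLin' M v) =
        Matrix.toLin' M (Pool.Agent.Y177.Dg.pv k w i v) := by
      intro i v
      funext t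
      rw [Matrix.toLin'_apply, Matrix.toLin'_apply]
      change (if w t = i + β then ∑ s, M t s * v s else 0) =
        ∑ s, M t s * (if w s = i then v s else 0)
      split_ifs with h1
      · refine Finset.sum_congr rfl fun s _ => ?_
        by_cases h2 : M t s = 0
        · rw [h2, zero_mul, zero_mul]
        · have h3 := hMw t s h2
          rw [h1] at h3
          rw [if_pos (add_right_cancel h3).symm]
      · symm
        refine Finset.sum_eq_zero fun s _ => ?_
        by_cases h2 : M t s = 0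
        · rw [h2, zero_mul]
        · have h3 := hMw t s h2
          rw [if_neg (fun h4 => h1 (by rw [h3, h4])), mul_zero]
    rw [expAction_eq]
    have hact := Pool.Agent.Y177.Ga.isAct_ex hN
    refine ⟨⟨hact.zero, hact.iter⟩, ?_, ?_⟩
    · intro i b hb j
      rw [MvPolynomial.mem_weightedHomogeneousSubmodule, ← Pool.Agent.Y177.Dg.pw_eq_iff] at hb ⊢
      rw [← Pool.Agent.Y177.Dg.rho_pw w hNβ hN, hb]
    · obtain ⟨R, hR⟩ := exists_ring w (Pool.Agent.Y177.Ga.ex p (Matrix.toLin' M)) (p ^ r) A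
      refine ⟨R, hR, ?_⟩
      exact Pool.Agent.Y177.Dg.lin_semi_main w hN β hNβ r A hA R fun b => by
        rw [mem_iff hR, Pool.Agent.Y177.Dg.pw_eq_iff,
          MvPolynomial.mem_weightedHomogeneousSubmodule]

end Pool.Agent.Results.MP_19ffc6_ag.SemidirectQuotients
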